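import Pool.Agent.V7H45.CY.Spec

/-!
# Project CYC, job G: lower bound of the local count by the pigeonhole principle
-/

set_option autoImplicit false

namespace Pool.Agent.V7H94.CY

open Finset Pool.Agent.W262.RK Pool.Agent.W307.RT Pool.Agent.V7H45.G8 Pool.Agent.V7H45.CY

lemma jac_prod (S : Finset ℕ) (q : ℕ) :
    jacobiSym ((∏ p ∈ S, p : ℕ) : ℤ) q = ∏ p ∈ S, jacobiSym (p : ℤ) q := by
  classical
  induction S using Finset.induction_on with
  | empty => simp [jacobiSym.one_left]
  | insert a S ha ih =>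
    rw [prod_insert ha, prod_insert ha, Nat.cast_mul, jacobiSym.mul_left, ih]

lemma prod_symmDiff_eq (e : ℕ → ℤ) (S T : Finset ℕ) (he : ∀ p ∈ S ∪ T, e p * e p = 1) :
    ∏ p ∈ symmDiff S T, e p = (∏ p ∈ S, e p) * ∏ p ∈ T, e p := by
  classical
  have h1 : ∏ p ∈ S, e p = (∏ p ∈ S \ T, e p) * ∏ p ∈ S ∩ T, e p := by
    rw [← prod_sdiff (inter_subset_left : S ∩ T ⊆ S), sdiff_inter_self_left]
  have h2 : ∏ p ∈ T, e p = (∏ p ∈ T \ S, e p) * ∏ p ∈ S ∩ T, e p := by
    rw [← prod_sdiff (inter_subset_right : S ∩ T ⊆ T), sdiff_inter_self_right]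
  have h3 : (∏ p ∈ S ∩ T, e p) * ∏ p ∈ S ∩ T, e p = 1 := by
    rw [← prod_mul_distrib]
    exact prod_eq_one fun p hp => he p (mem_union_left _ (mem_inter.1 hp).1)
  have h4 : ∏ p ∈ symmDiff S T, e p = (∏ p ∈ S \ T, e p) * ∏ p ∈ T \ S, e p := by
    rw [symmDiff_def, sup_eq_union, prod_union]
    exact disjoint_sdiff_sdiff
  rw [h1, h2, h4]
  linear_combination (-(∏ p ∈ S \ T, e p) * ∏ p ∈ T \ S, e p) * h3

open Classical in
/-- the subsets of `P` whose product is a square modulo all the primes of `Q` -/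
noncomputable def Ker (P Q : Finset ℕ) : Finset (Finset ℕ) :=
  P.powerset.filter (fun S => ∀ q ∈ Q, jacobiSym ((∏ p ∈ S, p : ℕ) : ℤ) q = 1)

lemma ker_card (P Q : Finset ℕ) (hP : ∀ p ∈ P, p.Prime) (hQ : ∀ q ∈ Q, q.Prime)
    (hd : Disjoint P Q) : 2 ^ P.card ≤ 2 ^ Q.card * (Ker P Q).card := by
  classical
  have hpm : ∀ p ∈ P, ∀ q ∈ Q, jacobiSym (p : ℤ) q = 1 ∨ jacobiSym (p : ℤ) q = -1 := by
    intro p hp q hq
    have h1 : jacobiSym (p : ℤ) q ≠ 0 := by
      apply jacobiSym.ne_zero
      rw [Int.gcd_natCast_natCast]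
      exact (Nat.coprime_primes (hP p hp) (hQ q hq)).2 fun h =>
        (disjoint_left.1 hd hp) (h ▸ hq)
    rcases jacobiSym.trichotomy (p : ℤ) q with h | h | h
    · exact absurd h h1
    · exact Or.inl h
    · exact Or.inr h
  have hpmS : ∀ S ⊆ P, ∀ q ∈ Q, jacobiSym ((∏ p ∈ S, p : ℕ) : ℤ) q = 1 ∨
      jacobiSym ((∏ p ∈ S, p : ℕ) : ℤ) q = -1 := by
    intro S hS q hq
    rw [jac_prod]
    induction S using Finset.induction_on with
    | empty => simp
    | insert a S ha ih =>
      rw [prod_insert ha]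
      rcases hpm a (hS (mem_insert_self _ _)) q hq with h | h <;>
        rcases ih (fun x hx => hS (mem_insert_of_mem hx)) with h' | h' <;> simp [h, h']
  let f : Finset ℕ → Finset ℕ := fun S =>
    Q.filter (fun q => jacobiSym ((∏ p ∈ S, p : ℕ) : ℤ) q = -1)
  have hf : ∀ S ∈ P.powerset, f S ∈ Q.powerset := fun S _ => mem_powerset.2 (filter_subset _ _)
  have h1 := card_eq_sum_card_fiberwise hf
  rw [card_powerset] at h1
  rw [h1, ← card_powerset Q, ← smul_eq_mul, ← sum_const]
  apply sum_le_sum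
  intro T _
  rcases (P.powerset.filter (fun S => f S = T)).eq_empty_or_nonempty with h | ⟨S0, h0⟩
  · rw [h]
    simp
  rw [mem_filter, mem_powerset] at h0
  apply card_le_card_of_injOn (fun S => symmDiff S S0)
  · intro S hS
    have hS' := mem_filter.1 (mem_coe.1 hS)
    have hSP := mem_powerset.1 hS'.1
    rw [mem_coe, Ker, mem_filter, mem_powerset]
    refine ⟨fun x hx => ?_, fun q hq => ?_⟩
    · rw [mem_symmDiff] at hx
      rcases hx with hx | hx
      · exact hSP hx.1
      · exact h0.1 hx.1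
    · rw [jac_prod, prod_symmDiff_eq, ← jac_prod, ← jac_prod]
      · have hiff : jacobiSym ((∏ p ∈ S, p : ℕ) : ℤ) q = -1 ↔
            jacobiSym ((∏ p ∈ S0, p : ℕ) : ℤ) q = -1 := by
          have h2 : f S = f S0 := hS'.2.trans h0.2.symm
          have h3 := congrArg (fun A : Finset ℕ => q ∈ A) h2
          simp only [f, mem_filter, hq, true_and, eq_iff_iff] at h3
          exact h3
        rcases hpmS S hSP q hq with h | h <;> rcases hpmS S0 h0.1 q hq with h' | h'
        · rw [h, h']; rfl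
        · rw [hiff.2 h'] at h
          norm_num at h
        · rw [hiff.1 h] at h'
          norm_num at h'
        · rw [h, h']; rfl
      · intro p hp
        have hp' : p ∈ P := by
          rcases mem_union.1 hp with h | h
          · exact hSP h
          · exact h0.1 h
        rcases hpm p hp' q hq with h | h <;> rw [h] <;> norm_num
  · intro S _ S' _ h
    exact symmDiff_left_injective _ h

theorem t_G : S_G := by
  classical
  intro n cls κ z y hz h3 h1 s hs
  obtain ⟨hdv, hco⟩ : (∀ j, s j ∈ (PP z y).divisors) ∧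
      ∀ i j, i ≠ j → (s i).Coprime (s j) := by
    simpa only [Tup, mem_filter, Fintype.mem_piFinset] using hs
  set P1 : Finset ℕ := (univ.filter (fun j => cls j = 1)).biUnion (fun j => (s j).primeFactors)
    with hP1
  set Q : Finset ℕ := (univ.filter (fun j => ¬ cls j = 1)).biUnion
    (fun j => (s j).primeFactors) with hQ
  have hs0 : ∀ j, s j ≠ 0 := fun j => Nat.ne_of_gt (Nat.pos_of_mem_divisors (hdv j))
  have hdisj : ∀ i j, i ≠ j → Disjoint (s i).primeFactors (s j).primeFactors := fun i j hij =>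
    (hco i j hij).disjoint_primeFactors
  have hPp : ∀ p ∈ P1, p.Prime := by
    intro p hp
    rw [hP1, mem_biUnion] at hp
    obtain ⟨j, _, hj⟩ := hp
    exact Nat.prime_of_mem_primeFactors hj
  have hQp : ∀ p ∈ Q, p.Prime := by
    intro p hp
    rw [hQ, mem_biUnion] at hp
    obtain ⟨j, _, hj⟩ := hp
    exact Nat.prime_of_mem_primeFactors hj
  have hPQ : Disjoint P1 Q := by
    rw [disjoint_left]
    intro p hp hq
    rw [hP1, mem_biUnion] at hp
    rw [hQ, mem_biUnion] at hq
    obtain ⟨i, hi, hi'⟩ := hp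
    obtain ⟨j, hj, hj'⟩ := hq
    have hij : i ≠ j := by
      rintro rfl
      exact (mem_filter.1 hj).2 (mem_filter.1 hi).2
    exact disjoint_left.1 (hdisj i j hij) hi' hj'
  have hcP : P1.card = ∑ j ∈ univ.filter (fun j => cls j = 1), (s j).primeFactors.card :=
    card_biUnion fun i _ j _ hij => hdisj i j hij
  have hcQ : Q.card = ∑ j ∈ univ.filter (fun j => ¬ cls j = 1), (s j).primeFactors.card :=
    card_biUnion fun i _ j _ hij => hdisj i j hij
  have hTT : TT cls s * 2 ^ Q.card = 2 ^ P1.card := by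
    have e1 : TT cls s = (2 : ℝ) ^ P1.card * (1 / 2 : ℝ) ^ Q.card := by
      rw [hcP, hcQ, ← prod_pow_eq_pow_sum, ← prod_pow_eq_pow_sum]
      unfold TT
      rw [← prod_filter_mul_prod_filter_not univ (fun j => cls j = 1)]
      congr 1
      · exact prod_congr rfl fun j hj => by rw [if_pos (mem_filter.1 hj).2]
      · exact prod_congr rfl fun j hj => by rw [if_neg (mem_filter.1 hj).2]
    rw [e1, mul_assoc, ← mul_pow]
    norm_num
  have hK := ker_card P1 Q hPp hQp hPQ
  have hm0 : (∏ j, s j) ≠ 0 := prod_ne_zero_iff.2 fun j _ => hs0 j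
  have hNL : (Ker P1 Q).card ≤ NL (∏ j, s j) (LLs cls (fun j _ => κ j) s ∅) := by
    unfold NL
    apply card_le_card_of_injOn (fun S => ((∏ p ∈ S, p : ℕ), 1))
    · intro S hS
      rw [mem_coe, Ker, mem_filter, mem_powerset] at hS
      obtain ⟨hSP, hSj⟩ := hS
      rw [mem_coe, mem_filter, mem_product]
      have hdvd : (∏ p ∈ S, p : ℕ) ∣ ∏ j, s j := by
        apply Finset.prod_primes_dvd
        · intro p hp
          exact (hPp p (hSP hp)).prime
        · intro p hp
          have := hSP hp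
          rw [hP1, mem_biUnion] at this
          obtain ⟨j, _, hj⟩ := this
          exact (Nat.dvd_of_mem_primeFactors hj).trans (dvd_prod_of_mem _ (mem_univ j))
      refine ⟨⟨Nat.mem_divisors.2 ⟨hdvd, hm0⟩, Nat.mem_divisors.2 ⟨one_dvd _, hm0⟩⟩, ?_⟩
      intro p hp
      have hpp := Nat.prime_of_mem_primeFactors hp
      have hv1 : dv p ((1 : ℕ) : ℤ) = false := by
        unfold dv
        rw [decide_eq_false_iff_not]
        intro h
        have h' : p ∣ 1 := by exact_mod_cast h
        exact hpp.one_lt.ne' (Nat.dvd_one.1 h')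
      have hs1 : ∀ k : ℤ, k = 1 → sg0 p k = false := by
        rintro k rfl
        unfold sg0
        rw [decide_eq_false_iff_not, jacobiSym.one_left]
        norm_num
      have hg1 : sgn p ((1 : ℕ) : ℤ) = false := by
        unfold sgn
        apply hs1
        simp
      show LLs cls (fun j _ => κ j) s ∅ p (dv p ((∏ p ∈ S, p : ℕ) : ℤ)) (dv p ((1 : ℕ) : ℤ))
        (sgn p ((∏ p ∈ S, p : ℕ) : ℤ)) (sgn p ((1 : ℕ) : ℤ))
      rw [hv1, hg1]
      intro j hj
      have hcj : cls j = 0 ∨ cls j = 1 ∨ cls j = 2 := by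
        have := h3 j
        revert this
        generalize cls j = c
        revert c
        decide
      have hpj : p ∈ (s j).primeFactors := Nat.mem_primeFactors.2 ⟨hpp, hj, hs0 j⟩
      have hbad : ¬ cls j = 1 → dv p ((∏ p ∈ S, p : ℕ) : ℤ) = false ∧
          sgn p ((∏ p ∈ S, p : ℕ) : ℤ) = false := by
        intro hc
        have hpQ : p ∈ Q := by
          rw [hQ, mem_biUnion]
          exact ⟨j, mem_filter.2 ⟨mem_univ _, hc⟩, hpj⟩
        have hnd : ¬ p ∣ (∏ p ∈ S, p : ℕ) := by
          intro h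
          obtain ⟨q, hq, hpq⟩ := (Prime.dvd_finsetProd_iff hpp.prime _).1 h
          have hqe : p = q := (Nat.prime_dvd_prime_iff_eq hpp (hPp q (hSP hq))).1 hpq
          exact disjoint_left.1 hPQ (hSP hq) (hqe ▸ hpQ)
        refine ⟨?_, ?_⟩
        · unfold dv
          rw [decide_eq_false_iff_not]
          intro h
          exact hnd (by exact_mod_cast h)
        · unfold sgn
          have hg : Int.gcd ((∏ p ∈ S, p : ℕ) : ℤ) (p : ℤ) = 1 := by
            rw [Int.gcd_natCast_natCast]
            exact (Nat.Prime.coprime_iff_not_dvd hpp).2 hnd |>.symm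
          rw [hg, Nat.cast_one, Int.ediv_one]
          unfold sg0
          rw [decide_eq_false_iff_not, hSj p hpQ]
          norm_num
      unfold LL
      rcases hcj with h | h | h
      · obtain ⟨hb1, hb2⟩ := hbad (by rw [h]; decide)
        rw [h, if_pos rfl, hb1, hb2]
        simp
      · rw [h, if_neg (by decide), if_pos rfl, hs1 (κ j) (h1 j h)]
        simp
      · obtain ⟨hb1, hb2⟩ := hbad (by rw [h]; decide)
        rw [h, if_neg (by decide), if_neg (by decide), if_pos rfl, hb1, hb2]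
        simp
    · intro S hS S' hS' h
      rw [mem_coe, Ker, mem_filter, mem_powerset] at hS hS'
      have h5 : (∏ p ∈ S, p : ℕ) = ∏ p ∈ S', p := (Prod.ext_iff.1 h).1
      rw [← Nat.primeFactors_prod (fun p hp => hPp p (hS.1 hp)),
        ← Nat.primeFactors_prod (fun p hp => hPp p (hS'.1 hp)), h5]
  have h6 : (2 : ℝ) ^ P1.card ≤ 2 ^ Q.card * ((Ker P1 Q).card : ℝ) := by exact_mod_cast hK
  have h7 : TT cls s * 2 ^ Q.card ≤ ((Ker P1 Q).card : ℝ) * 2 ^ Q.card := by
    rw [hTT]
    linarith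
  have h8 : TT cls s ≤ ((Ker P1 Q).card : ℝ) := le_of_mul_le_mul_right h7 (by positivity)
  exact h8.trans (by exact_mod_cast hNL)

end Pool.Agent.V7H94.CY
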