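import Pool.Agent.V7H45.CY.Spec
import Pool.Agent.V7H54.C8.Par8

/-!
# Project CYC: the curves with a point of order 8 and without a subgroup `Z/2 x Z/8` are many
-/

set_option autoImplicit false

namespace Pool.Agent.V7H94.CY

open Finset Pool.Agent.W262.RK Pool.Agent.W307.RT Pool.Agent.V7H45.CY

/-- a parametrisation by pairs bounds the number of the curves -/
lemma cv_card {m k : ℕ} {M N : ℤ → ℤ → ℤ} (hk : k ≠ 0) (h : PAR m k M N) :
    ∃ C : ℕ, ∀ H Y : ℕ, C * H ≤ Y ^ k → (Cv m H).card ≤ (2 * Y + 1) ^ 2 := by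
  obtain ⟨C, F, hF⟩ := h
  refine ⟨C, fun H Y hY => ?_⟩
  obtain ⟨hinj, hpar⟩ := hF H
  have hmaps : ∀ c ∈ Cv m H, F c ∈ Icc (-(Y : ℤ)) Y ×ˢ Icc (-(Y : ℤ)) Y := by
    intro c hc
    obtain ⟨-, -, -, -, h1, h2, -⟩ := hpar c hc
    have h3 : (F c).1.natAbs ≤ Y := by
      by_contra hlt
      have := Nat.pow_lt_pow_left (not_le.1 hlt) hk
      omega
    have h4 : (F c).2.natAbs ≤ Y := by
      by_contra hlt
      have := Nat.pow_lt_pow_left (not_le.1 hlt) hk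
      omega
    rw [mem_product, mem_Icc, mem_Icc]
    omega
  have h1 := card_le_card_of_injOn F hmaps hinj
  refine h1.trans (le_of_eq ?_)
  rw [card_product, Int.card_Icc]
  have h2 : ((Y : ℤ) + 1 - -(Y : ℤ)).toNat = 2 * Y + 1 := by omega
  rw [h2, sq]

open Classical in
/-- the exceptions are few -/
theorem t_EX (m k l : ℕ) (hl : l ≠ 0) {M N : ℤ → ℤ → ℤ} (hP : PAR m (2 * l) M N)
    (hk : k = l) (hL : LOWC m k) :
    ∃ (c : ℝ) (C T0 : ℕ), 0 < c ∧ ∀ T H : ℕ, T0 ≤ T → C * T ^ k ≤ H →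
      c * T ^ 2 ≤ (((CvC m H).filter (fun c : ℤ × ℤ => ¬ HasT m (Sh c.1 c.2))).card : ℝ) := by
  subst hk
  obtain ⟨c, C, T0, hc, hlow⟩ := hL
  obtain ⟨C0, hC0⟩ := cv_card (by omega) hP
  set K : ℕ := C0 * (C + 1) + 1 with hK
  obtain ⟨n0, hn0⟩ := exists_nat_ge (144 * (K : ℝ) ^ 2 / c)
  refine ⟨c / 2, C + 1, max T0 (max n0 1), by linarith, fun T H hT hH => ?_⟩
  have hT0 : T0 ≤ T := le_trans (le_max_left _ _) hT
  have hTn : n0 ≤ T := le_trans (le_trans (le_max_left _ _) (le_max_right _ _)) hT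
  have hT1' : 1 ≤ T := le_trans (le_trans (le_max_right _ _) (le_max_right _ _)) hT
  have hle : ∀ t : ℕ, (C + 1) * t ^ k ≤ H → t ≤ H := by
    intro t ht
    calc t ≤ t ^ k := Nat.le_self_pow hl t
      _ ≤ (C + 1) * t ^ k := Nat.le_mul_of_pos_left _ (by omega)
      _ ≤ H := ht
  set T1 := Nat.findGreatest (fun t => (C + 1) * t ^ k ≤ H) H with hT1
  have hs1 : (C + 1) * T1 ^ k ≤ H := Nat.findGreatest_spec (P := fun t => (C + 1) * t ^ k ≤ H) (hle T hH) hH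
  have hs2 : T ≤ T1 := Nat.le_findGreatest (hle T hH) hH
  have hs3 : H ≤ (C + 1) * (T1 + 1) ^ k := by
    by_contra hlt
    have h1 : (C + 1) * (T1 + 1) ^ k ≤ H := (not_le.1 hlt).le
    have h2 : T1 + 1 ≤ T1 := Nat.le_findGreatest (hle _ h1) h1
    omega
  set Y : ℕ := K * (Nat.sqrt (T1 + 1) + 1) with hY
  have hsq1 : T1 + 1 ≤ (Nat.sqrt (T1 + 1) + 1) ^ 2 := by
    rw [sq]
    exact (Nat.lt_succ_sqrt (T1 + 1)).le
  have hYH : C0 * H ≤ Y ^ (2 * k) := by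
    calc C0 * H ≤ C0 * ((C + 1) * (T1 + 1) ^ k) := Nat.mul_le_mul_left _ hs3
      _ = (C0 * (C + 1)) * (T1 + 1) ^ k := by ring
      _ ≤ K ^ (2 * k) * ((Nat.sqrt (T1 + 1) + 1) ^ 2) ^ k := by
          apply Nat.mul_le_mul
          · calc C0 * (C + 1) ≤ K := by omega
              _ ≤ K ^ (2 * k) := Nat.le_self_pow (by omega) K
          · exact Nat.pow_le_pow_left hsq1 k
      _ = Y ^ (2 * k) := by
          rw [hY, mul_pow, ← pow_mul]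
  have hCv := hC0 H Y hYH
  have hsq2 : Nat.sqrt (T1 + 1) * Nat.sqrt (T1 + 1) ≤ T1 + 1 := Nat.sqrt_le _
  have hsq3 : 1 ≤ Nat.sqrt (T1 + 1) := Nat.le_sqrt.2 (by omega)
  have hCv2 : ((Cv m H).card : ℝ) ≤ 72 * (K : ℝ) ^ 2 * T1 := by
    have h1 : (Cv m H).card ≤ 72 * K ^ 2 * T1 := by
      refine hCv.trans ?_
      have hK1 : 1 ≤ K := by omega
      have h2 : 2 * Y + 1 ≤ 6 * K * Nat.sqrt (T1 + 1) := by
        have h3 : Y ≤ 2 * K * Nat.sqrt (T1 + 1) := by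
          rw [hY]
          nlinarith
        have h4 : 1 ≤ 2 * K * Nat.sqrt (T1 + 1) := by nlinarith
        nlinarith
      calc (2 * Y + 1) ^ 2 ≤ (6 * K * Nat.sqrt (T1 + 1)) ^ 2 := Nat.pow_le_pow_left h2 2
        _ = 36 * K ^ 2 * (Nat.sqrt (T1 + 1) * Nat.sqrt (T1 + 1)) := by ring
        _ ≤ 36 * K ^ 2 * (T1 + 1) := Nat.mul_le_mul_left _ hsq2
        _ ≤ 36 * K ^ 2 * (2 * T1) := Nat.mul_le_mul_left _ (by omega)
        _ = 72 * K ^ 2 * T1 := by ring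
    exact_mod_cast h1
  have hall := hlow T1 H (hT0.trans hs2) ((Nat.mul_le_mul_right _ (by omega)).trans hs1)
  have hsub : (CvC m H).filter (fun c : ℤ × ℤ => HasT m (Sh c.1 c.2)) ⊆ Cv m H := by
    intro c hc
    rw [mem_filter] at hc
    obtain ⟨h1, h2⟩ := hc
    simp only [CvC, mem_filter] at h1
    simp only [Cv, mem_filter]
    exact ⟨h1.1, h1.2.1, h1.2.2.1, h1.2.2.2.1, h1.2.2.2.2.1, h2⟩
  have hcard : ((CvC m H).card : ℝ) ≤ (Cv m H).card +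
      (((CvC m H).filter (fun c : ℤ × ℤ => ¬ HasT m (Sh c.1 c.2))).card : ℝ) := by
    have h1 := card_filter_add_card_filter_not (s := CvC m H) (fun c : ℤ × ℤ => HasT m (Sh c.1 c.2))
    have h2 := card_le_card hsub
    have h3 : (CvC m H).card ≤ (Cv m H).card +
      ((CvC m H).filter (fun c : ℤ × ℤ => ¬ HasT m (Sh c.1 c.2))).card := by omega
    exact_mod_cast h3
  have hT1n : (144 * (K : ℝ) ^ 2 / c) ≤ T1 := hn0.trans (by exact_mod_cast hTn.trans hs2)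
  have hT1r : (T : ℝ) ≤ T1 := by exact_mod_cast hs2
  have hTr : (0 : ℝ) ≤ T := Nat.cast_nonneg T
  rw [div_le_iff₀ hc] at hT1n
  have h5 : (T : ℝ) ^ 2 ≤ (T1 : ℝ) ^ 2 := by gcongr
  have h6 : 144 * (K : ℝ) ^ 2 * T1 ≤ T1 * c * T1 :=
    mul_le_mul_of_nonneg_right hT1n (by linarith)
  nlinarith

open Classical in
/-- JOB EX8 -/
theorem t_EX8 (hL : S_L8) : ∃ (c : ℝ) (C T0 : ℕ), 0 < c ∧ ∀ T H : ℕ, T0 ≤ T → C * T ^ 24 ≤ H →
    c * T ^ 2 ≤ (((CvC 8 H).filter (fun c : ℤ × ℤ => ¬ HasT 8 (Sh c.1 c.2))).card : ℝ) :=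
  t_EX 8 24 24 (by norm_num) Pool.Agent.V7H54.C8.par8 rfl hL

end Pool.Agent.V7H94.CY
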