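import Pool.Agent.V7H45.G8.Inp
import Pool.Agent.H474R2.PG.MertensF

/-!
# Project CYC: primes at which `-1` or `-3` is not a square
-/

set_option autoImplicit false

namespace Pool.Agent.V7H94.CY

open Finset Polynomial Pool.Agent.W262.RK Pool.Agent.V7H45.G8 Pool.Agent.W655.RK
open Pool.Agent.H474R2.PG (rho Sg PR mertens_lower)

lemma irr_sub (δ : ℤ) (hδ : δ < 0) : Irreducible (X ^ 2 - C δ : ℤ[X]) := by
  have hm : (X ^ 2 - C δ : ℤ[X]).Monic := monic_X_pow_sub_C δ two_ne_zero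
  have hd : (X ^ 2 - C δ : ℤ[X]).natDegree = 2 := natDegree_X_pow_sub_C
  rw [hm.irreducible_iff_roots_eq_zero_of_degree_le_three (by rw [hd]) (by rw [hd]; norm_num)]
  apply Multiset.eq_zero_of_forall_notMem
  intro x hx
  rw [mem_roots hm.ne_zero] at hx
  simp only [IsRoot.def, eval_sub, eval_pow, eval_X, eval_C] at hx
  nlinarith [sq_nonneg x]

lemma rho_le_Jr {δ : ℤ} {p : ℕ} (hp : p.Prime) (hp2 : p ≠ 2) :
    (rho (X ^ 2 - C δ) p : ℝ) ≤ 1 + Jr δ p := by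
  have : Fact p.Prime := ⟨hp⟩
  have h1 := legendreSym.card_sqrts p hp2 δ
  have h2 : rho (X ^ 2 - C δ) p ≤ {x : ZMod p | x ^ 2 = δ}.toFinset.card := by
    unfold rho
    apply card_le_card_of_injOn (fun a : ℕ => (a : ZMod p))
    · intro a ha
      rw [mem_coe, mem_filter] at ha
      rw [mem_coe, Set.mem_toFinset, Set.mem_ofPred_eq]
      have h3 := ha.2
      simp only [eval_sub, eval_pow, eval_X, eval_C] at h3
      have h4 := (ZMod.intCast_zmod_eq_zero_iff_dvd _ p).2 h3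
      push_cast at h4
      exact sub_eq_zero.1 h4
    · intro a ha b hb hab
      rw [mem_coe, mem_filter, mem_range] at ha hb
      have h3 := (ZMod.natCast_eq_natCast_iff' a b p).1 hab
      rwa [Nat.mod_eq_of_lt ha.1, Nat.mod_eq_of_lt hb.1] at h3
  have h3 : Jr δ p = ((legendreSym p δ : ℤ) : ℝ) := by
    unfold Jr
    rw [jacobiSym.legendreSym.to_jacobiSym]
  have h4 : ((rho (X ^ 2 - C δ) p : ℕ) : ℤ) ≤ legendreSym p δ + 1 := by
    rw [← h1]
    exact_mod_cast h2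
  have h5 : ((rho (X ^ 2 - C δ) p : ℕ) : ℝ) ≤ ((legendreSym p δ : ℤ) : ℝ) + 1 := by
    exact_mod_cast h4
  rw [h3]
  linarith

/-- Mertens for the primes at which `δ` is not a square -/
theorem low_d (δ : ℤ) (hδ : δ = -1 ∨ δ = -3) (z : ℕ) (hz : 4 ≤ z) : ∃ C : ℝ, 0 ≤ C ∧
    ∀ y, z < y → ∑ p ∈ PS z y, (1 - Jr δ p) / (p : ℝ) ≤ Real.log (Real.log y) + C := by
  have hδ0 : δ < 0 := by omega
  obtain ⟨C1, h1⟩ := mertens_lower (X ^ 2 - C δ) (irr_sub δ hδ0)
    (by rw [natDegree_X_pow_sub_C]; norm_num)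
  obtain ⟨C0, hC0, hmer⟩ := Pool.Agent.W655.RK.mertens
  set S0 : ℝ := ∑ p ∈ PR (z : ℝ), (rho (X ^ 2 - C δ) p : ℝ) / (p : ℝ) with hS0
  have hS00 : 0 ≤ S0 := Finset.sum_nonneg fun p _ => by positivity
  refine ⟨2 * C0 + |C1| + S0, by positivity, fun y hy => ?_⟩
  have h2 := h1 (y : ℝ) (by exact_mod_cast (by omega : 3 ≤ y))
  have h3 : Sg (rho (X ^ 2 - C δ)) (y : ℝ) ≤ S0 + ∑ p ∈ PS z y, (1 + Jr δ p) / (p : ℝ) := by
    unfold Sg
    rw [← Finset.sum_filter_add_sum_filter_not (PR (y : ℝ)) (fun p => p ≤ z)]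
    apply add_le_add
    · rw [hS0]
      apply Finset.sum_le_sum_of_subset_of_nonneg
      · intro p hp
        rw [Finset.mem_filter, PR, Finset.mem_filter, Finset.mem_Icc] at hp
        rw [PR, Finset.mem_filter, Finset.mem_Icc, Nat.floor_natCast]
        exact ⟨⟨hp.1.1.1, hp.2⟩, hp.1.2⟩
      · intro p _ _
        positivity
    · have hsub : (PR (y : ℝ)).filter (fun p => ¬ p ≤ z) ⊆ PS z y := by
        intro p hp
        rw [Finset.mem_filter, PR, Finset.mem_filter, Finset.mem_Icc, Nat.floor_natCast] at hp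
        exact mem_filter.2 ⟨mem_Ioc.2 ⟨not_le.1 hp.2, hp.1.1.2⟩, hp.1.2⟩
      calc ∑ p ∈ (PR (y : ℝ)).filter (fun p => ¬ p ≤ z), (rho (X ^ 2 - C δ) p : ℝ) / (p : ℝ)
          ≤ ∑ p ∈ (PR (y : ℝ)).filter (fun p => ¬ p ≤ z), (1 + Jr δ p) / (p : ℝ) := by
            apply Finset.sum_le_sum
            intro p hp
            have hp' := hsub hp
            have hpz := PS_lt hp'
            exact div_le_div_of_nonneg_right (rho_le_Jr (PS_prime hp') (by omega))
              (by positivity)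
        _ ≤ ∑ p ∈ PS z y, (1 + Jr δ p) / (p : ℝ) := by
            apply Finset.sum_le_sum_of_subset_of_nonneg hsub
            intro p _ _
            exact div_nonneg (one_add_Jr_nonneg δ p) (Nat.cast_nonneg p)
  have h4 : ∑ p ∈ PS z y, (1 - Jr δ p) / (p : ℝ) =
      2 * ∑ p ∈ PS z y, (1 : ℝ) / p - ∑ p ∈ PS z y, (1 + Jr δ p) / (p : ℝ) := by
    rw [mul_sum, ← sum_sub_distrib]
    apply sum_congr rfl
    intro p _
    ring
  have h5 := hmer z y (by omega)
  have h6 := le_abs_self C1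
  rw [h4]
  linarith

/-- the sum over the products of primes at which `δ` is not a square -/
theorem full_d (δ : ℤ) (hδ : δ = -1 ∨ δ = -3) (c z : ℕ) (hz : 2 * c + 4 ≤ z) : ∃ C : ℝ, 0 ≤ C ∧
    ∀ y, z < y → ∑ r ∈ (PP z y).divisors, ∏ p ∈ r.primeFactors,
      (1 - Jr δ p) / 2 / ((p : ℝ) - c) ≤ C * (Real.log y) ^ (1 / 2 : ℝ) := by
  obtain ⟨C0, hC0, hlow⟩ := low_d δ hδ z (by omega)
  obtain ⟨K, hK, hsq⟩ := sum_inv_sq
  have hJ0 : ∀ p : ℕ, 0 ≤ 1 - Jr δ p := fun p => by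
    have := (abs_le.1 (abs_Jr_le δ p)).2
    linarith
  have hJ2 : ∀ p : ℕ, 1 - Jr δ p ≤ 2 := fun p => by
    have := (abs_le.1 (abs_Jr_le δ p)).1
    linarith
  have hw : ∀ p : ℕ, z < p → 0 ≤ (1 - Jr δ p) / 2 / ((p : ℝ) - c) ∧
      (1 - Jr δ p) / 2 / ((p : ℝ) - c) ≤
        1 / 2 * ((1 - Jr δ p) / p) + 2 * c * (1 / (p : ℝ) ^ 2) := by
    intro p hp
    have hp1 : (2 * c + 5 : ℝ) ≤ p := by exact_mod_cast (by omega : 2 * c + 5 ≤ p)
    have hc : (0:ℝ) ≤ c := Nat.cast_nonneg c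
    have hp0 : (0:ℝ) < p := by linarith
    have hpc : (0:ℝ) < (p : ℝ) - c := by linarith
    have h0 := hJ0 p
    have h2 := hJ2 p
    refine ⟨by positivity, ?_⟩
    have h1 : (1 - Jr δ p) / 2 / ((p : ℝ) - c) =
        1 / 2 * ((1 - Jr δ p) / p) + (1 - Jr δ p) / 2 * (c / (p * (p - c))) := by
      field_simp
      ring
    rw [h1]
    have h3 : (1 - Jr δ p) / 2 * (c / (p * (p - c))) ≤ 1 * (c / (p * (p - c))) :=
      mul_le_mul_of_nonneg_right (by linarith) (by positivity)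
    have h4 : c / (p * (p - c)) ≤ 2 * c * (1 / (p : ℝ) ^ 2) := by
      rw [mul_one_div, div_le_div_iff₀ (by positivity) (by positivity)]
      have h5 : (p : ℝ) ^ 2 ≤ 2 * (p * (p - c)) := by nlinarith
      have h6 := mul_le_mul_of_nonneg_left h5 hc
      linarith
    linarith
  have hfull := full_gen (w := 1 / 2) (B := 1 / 2 * C0 + 2 * c * K) (z := z)
    (φ := fun p => (1 - Jr δ p) / 2 / ((p : ℝ) - c)) (by norm_num) le_rfl (by omega)
    (by positivity) (fun y p hp => (hw p (PS_lt hp)).1) (by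
      intro y hy
      calc _ ≤ ∑ p ∈ PS z y, (1 / 2 * ((1 - Jr δ p) / p) + 2 * c * (1 / (p : ℝ) ^ 2)) :=
            Finset.sum_le_sum fun p hp => (hw p (PS_lt hp)).2
        _ = 1 / 2 * ∑ p ∈ PS z y, (1 - Jr δ p) / (p : ℝ) +
            2 * c * ∑ p ∈ PS z y, 1 / (p : ℝ) ^ 2 := by
            rw [Finset.sum_add_distrib, Finset.mul_sum, Finset.mul_sum]
        _ ≤ 1 / 2 * (Real.log (Real.log y) + C0) + 2 * c * K := by
            refine add_le_add (mul_le_mul_of_nonneg_left (hlow y hy) (by norm_num))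
              (mul_le_mul_of_nonneg_left (hsq _) (by positivity))
        _ = _ := by ring)
  exact ⟨Real.exp (3 * (1 / 2 * C0 + 2 * c * K + 1)), (Real.exp_pos _).le, hfull.1⟩

end Pool.Agent.V7H94.CY
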